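import Pool.Agent.MP_21a573_al.SL.Core

/-!
Class closures in `SL_2`, their connectivity, and the two small fields.
-/

open scoped MatrixGroups
open Matrix Finset

namespace Pool.Agent.MP_21a573_al.SL

section Conn

variable {F : Type*} [Field F]

lemma thin_of_subsingleton {X : Set SL(2, F)} (hX : X.Subsingleton) : Thin X :=
  fun _ _ hv => Or.inr fun _ _ h h' => N_injective hv (mul_left_cancel (hX h h'))

lemma conn_of_subsingleton {X : Set SL(2, F)} (hX : X.Subsingleton) : Conn X := by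
  rintro S hS ⟨x, hx⟩ - y hy
  rwa [hX hy (hS hx)]

lemma thin_tr (τ : F) : Thin {g : SL(2, F) | tr g = τ} := by
  intro g v _
  simp only [Set.mem_ofPred_eq, tr_mul_N]
  by_cases hD : D v (g.1 *ᵥ v) = 0
  · by_cases hg : tr g = τ
    · left; intro s; rw [hD, hg]; ring
    · right; intro s s' h; rw [hD] at h; exact absurd (by linear_combination h) hg
  · right
    intro s s' h h'
    apply mul_right_cancel₀ hD
    linear_combination h - h'

lemma conn_tr (τ : F) {r : F} (hr0 : r ≠ 0) (hr1 : r ≠ 1) (hr2 : r ≠ -1) :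
    Conn {g : SL(2, F) | tr g = τ} := by
  rintro S hS ⟨x, hx⟩ hcl y hy
  have hxτ : tr x = τ := hS hx
  have hyτ : tr y = τ := hy
  have noroot : ∀ m : F, m ^ 2 - τ * m + 1 ≠ 0 := by
    intro m hm
    have hm0 : m ≠ 0 := by rintro rfl; simp at hm
    obtain ⟨v, hv, he⟩ := eigen_of_root x (m := m) (by rwa [hxτ])
    have all : ∀ k : F, k ≠ 0 → k ^ 2 - τ * k + 1 = 0 := by
      intro k hk
      obtain ⟨z, hz, e⟩ := hcl x hx v hv (k / m) (div_ne_zero hk hm0)
      rw [he, smul_smul, div_mul_cancel₀ _ hm0] at e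
      have := root_of_eigen z hv e
      rwa [show tr z = τ from hS hz] at this
    have h1 := all 1 one_ne_zero
    have h2 := all r hr0
    have : (r - 1) ^ 2 = 0 := by linear_combination h2 - r * h1
    exact hr1 (sub_eq_zero.1 (pow_eq_zero_iff two_ne_zero |>.1 this))
  have noeig : ∀ z : SL(2, F), tr z = τ → ∀ u : Fin 2 → F, u ≠ 0 → D u (z.1 *ᵥ u) ≠ 0 := by
    intro z hz u hu hD
    obtain ⟨c, hc⟩ := exists_smul_of_D hu hD
    have := root_of_eigen z hu hc
    rw [hz] at this
    exact noroot c this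
  have hv : (![1, 0] : Fin 2 → F) ≠ 0 := (ne_zero_iff _).2 (Or.inl (by simp))
  generalize (![1, 0] : Fin 2 → F) = v at hv
  have fin : ∀ z ∈ S, ∀ k : F, k ≠ 0 → y.1 *ᵥ v = k • (z.1 *ᵥ v) → y ∈ S := by
    intro z hz k hk e
    obtain ⟨y', hy', e'⟩ := hcl z hz v hv k hk
    have : y = y' := eq_of_tr (hyτ.trans (hS hy').symm) (noeig y hyτ v hv) (e.trans e'.symm)
    rwa [this]
  have hd := noeig x hxτ v hv
  obtain ⟨w, hw⟩ : ∃ w, x.1 *ᵥ v = w := ⟨_, rfl⟩
  rw [hw] at hd
  obtain ⟨α, β, hαβ⟩ : ∃ α β : F, y.1 *ᵥ v = α • v + β • w := ⟨_, _, decomp hd _⟩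
  have hβ : β ≠ 0 := by
    rintro rfl
    apply noeig y hyτ v hv
    rw [hαβ, zero_smul, add_zero, D_smul_right, D_self, mul_zero]
  by_cases hα : α = 0
  · exact fin x hx β hβ (by rw [hαβ, hα, zero_smul, zero_add, hw])
  have hr3 : 1 - r ^ 2 ≠ 0 := by
    intro h
    have : (r - 1) * (r + 1) = 0 := by linear_combination -h
    rcases mul_eq_zero.1 this with h | h
    · exact hr1 (by linear_combination h)
    · exact hr2 (by linear_combination h)
  obtain ⟨b, hb⟩ : ∃ b : F, b * (1 - r ^ 2) = 1 + r ^ 2 * τ - r * τ :=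
    ⟨_, div_mul_cancel₀ _ hr3⟩
  obtain ⟨s, hs⟩ : ∃ s : F, s = r * (b + τ) := ⟨_, rfl⟩
  have hP := noroot s
  obtain ⟨P, hPe⟩ : ∃ P : F, P = s ^ 2 - τ * s + 1 := ⟨_, rfl⟩
  rw [← hPe] at hP
  obtain ⟨k, hk⟩ : ∃ k : F, k = α * P / β := ⟨_, rfl⟩
  have hk0 : k ≠ 0 := by rw [hk]; exact div_ne_zero (mul_ne_zero hα hP) hβ
  obtain ⟨x1, hx1, e1⟩ := hcl x hx v hv k⁻¹ (inv_ne_zero hk0)
  rw [hw] at e1
  have e2 : x1.1 *ᵥ w = τ • w - k • v := by
    have := cayley x1 v
    rw [e1, Matrix.mulVec_smul, show tr x1 = τ from hS hx1] at this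
    have h2 : x1.1 *ᵥ w = k • (k⁻¹ • (x1.1 *ᵥ w)) := by
      rw [smul_smul, mul_inv_cancel₀ hk0, one_smul]
    rw [h2, this, smul_sub, smul_comm k τ, smul_smul k, mul_inv_cancel₀ hk0, one_smul]
  have hu : (b * k) • v + w ≠ 0 := by
    intro h
    apply hd
    have : D v ((b * k) • v + w) = D v w := by rw [D_add_right, D_smul_right, D_self]; ring
    rw [← this, h, D_zero_right]
  obtain ⟨z, hz, e3⟩ := hcl x1 hx1 _ hu r hr0
  have hzτ : tr z = τ := hS hz
  have e4 : z.1 *ᵥ ((b * k) • v + w) = s • w - (r * k) • v := by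
    rw [e3, Matrix.mulVec_add, Matrix.mulVec_smul, e1, e2, smul_smul,
      mul_inv_cancel_right₀ hk0, hs]
    module
  have e5 := cayley z ((b * k) • v + w)
  rw [e4, hzτ] at e5
  have hn := noeig z hzτ _ hu
  rw [e4] at hn
  have hc : (s * b + r) * k ≠ 0 := by
    intro h
    apply hn
    simp only [D, Pi.add_apply, Pi.sub_apply, Pi.smul_apply, smul_eq_mul]
    linear_combination (v 0 * w 1 - v 1 * w 0) * h
  have e6 : ((s * b + r) * k) • (z.1 *ᵥ v) = P • w + k • v := by
    have : ((s * b + r) * k) • v = s • ((b * k) • v + w) - (s • w - (r * k) • v) := by module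
    rw [← Matrix.mulVec_smul, this, Matrix.mulVec_sub, Matrix.mulVec_smul, e4, e5]
    have hb' : b - r * (s - τ) = 1 := by rw [hs]; linear_combination hb
    have : k • v = ((b - r * (s - τ)) * k) • v := by rw [hb', one_mul]
    rw [this, hPe]
    module
  refine fin z hz (β / P * ((s * b + r) * k)) (mul_ne_zero (div_ne_zero hβ hP) hc) ?_
  rw [mul_smul, e6, hαβ, smul_add, smul_smul, smul_smul, div_mul_cancel₀ _ hP, hk]
  have : β / P * (α * P / β) = α := by field_simp
  rw [this, add_comm]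

end Conn

section Closure

variable {K : Type*} [Field K]

lemma tr_conj (c x : SL(2, K)) : tr (c * x * c⁻¹) = tr x := by
  have h : ∀ g : SL(2, K), tr g = g.1.trace := fun g => (Matrix.trace_fin_two _).symm
  have e : (c⁻¹).1 * c.1 = 1 := congrArg Subtype.val (inv_mul_cancel c)
  rw [h, h]
  show (c.1 * x.1 * (c⁻¹).1).trace = _
  rw [Matrix.trace_mul_cycle, e, one_mul]

lemma tr_of_mem_closure {x g : SL(2, K)} (hg : g ∈ zariskiClosure {y | IsConj x y}) :
    tr g = tr x := by
  let P : MvPolynomial (Fin 2 × Fin 2) K :=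
    MvPolynomial.X (0, 0) + MvPolynomial.X (1, 1) - MvPolynomial.C (tr x)
  have hP : ∀ h : SL(2, K), MvPolynomial.aeval (entries h) P = tr h - tr x := by
    intro h
    simp [P, entries, tr]
  rw [← sub_eq_zero, ← hP]
  apply hg
  rintro _ ⟨h, hh, rfl⟩
  obtain ⟨c, rfl⟩ := isConj_iff.1 hh
  rw [hP, tr_conj, sub_self]

lemma scalar_of_D {x : SL(2, K)} (h : ∀ v, D v (x.1 *ᵥ v) = 0) :
    ∃ a : K, ∀ v, x.1 *ᵥ v = a • v := by
  have h1 := h ![1, 0]
  have h2 := h ![0, 1]
  have h3 := h ![1, 1]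
  simp [D, Matrix.mulVec, dotProduct, Fin.sum_univ_two] at h1 h2 h3
  refine ⟨x.1 0 0, fun v => ?_⟩
  ext i
  fin_cases i
  · simp [Matrix.mulVec, dotProduct, Fin.sum_univ_two, h2]
  · simp only [Matrix.mulVec, dotProduct, Fin.sum_univ_two, Fin.mk_one, Pi.smul_apply,
      smul_eq_mul]
    linear_combination v 0 * h1 + v 1 * (h3 - h1 + h2)

lemma ext_mulVec {g y : SL(2, K)} (h : ∀ v, g.1 *ᵥ v = y.1 *ᵥ v) : g = y :=
  ext_of_basis (v := ![1, 0]) (w := ![0, 1]) (by simp [D]) (h _) (h _)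

lemma eq_of_mem_closure_scalar {x g : SL(2, K)} (h : ∀ v, D v (x.1 *ᵥ v) = 0)
    (hg : g ∈ zariskiClosure {y | IsConj x y}) : g = x := by
  obtain ⟨a, ha⟩ := scalar_of_D h
  apply Subtype.ext
  ext i j
  let P : MvPolynomial (Fin 2 × Fin 2) K := MvPolynomial.X (i, j) - MvPolynomial.C (x.1 i j)
  have hP : ∀ h : SL(2, K), MvPolynomial.aeval (entries h) P = h.1 i j - x.1 i j := by
    intro h
    simp [P, entries]
  rw [← sub_eq_zero, ← hP]
  apply hg
  rintro _ ⟨h, hh, rfl⟩
  obtain ⟨c, rfl⟩ := isConj_iff.1 hh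
  have : c * x * c⁻¹ = x := ext_mulVec fun v => by
    rw [mul_mulVec, mul_mulVec, ha, Matrix.mulVec_smul, mulVec_inv, ha]
  rw [hP, this, sub_self]

/-- The companion matrix with trace `τ`. -/
def comp (τ : K) : SL(2, K) := ⟨!![0, -1; 1, τ], by rw [Matrix.det_fin_two_of]; ring⟩

lemma comp_val (τ : K) : (comp τ).1 = !![0, -1; 1, τ] := rfl

lemma tr_comp (τ : K) : tr (comp τ) = τ := by simp [tr, comp_val]

lemma isConj_comp [IsAlgClosed K] {x : SL(2, K)} {v : Fin 2 → K} (h : D v (x.1 *ᵥ v) ≠ 0) :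
    IsConj (comp (tr x)) x := by
  obtain ⟨c, hc⟩ := IsAlgClosed.exists_eq_mul_self (D v (x.1 *ᵥ v))⁻¹
  have h1 : D (c • v) (x.1 *ᵥ (c • v)) = 1 := by
    rw [Matrix.mulVec_smul, D_smul_left, D_smul_right, ← mul_assoc, ← hc, inv_mul_cancel₀ h]
  generalize c • v = u at h1
  have h2 := cayley x u
  obtain ⟨w, hw⟩ : ∃ w, x.1 *ᵥ u = w := ⟨_, rfl⟩
  rw [hw] at h1 h2
  let P : SL(2, K) := ⟨!![u 0, w 0; u 1, w 1], by
    rw [Matrix.det_fin_two_of]; unfold D at h1; linear_combination h1⟩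
  have p1 : P.1 *ᵥ ![1, 0] = u := by
    ext i; fin_cases i <;> simp [P, Matrix.mulVec, dotProduct, Fin.sum_univ_two]
  have p2 : P.1 *ᵥ ![0, 1] = w := by
    ext i; fin_cases i <;> simp [P, Matrix.mulVec, dotProduct, Fin.sum_univ_two]
  have c1 : (comp (tr x)).1 *ᵥ ![1, 0] = ![0, 1] := by
    ext i; fin_cases i <;> simp [comp_val, Matrix.mulVec, dotProduct, Fin.sum_univ_two]
  have c2 : (comp (tr x)).1 *ᵥ ![0, 1] = tr x • ![0, 1] - ![1, 0] := by
    ext i; fin_cases i <;> simp [comp_val, Matrix.mulVec, dotProduct, Fin.sum_univ_two]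
  rw [isConj_iff]
  refine ⟨P, ?_⟩
  rw [mul_inv_eq_iff_eq_mul]
  refine ext_of_basis (v := ![1, 0]) (w := ![0, 1]) (by simp [D]) ?_ ?_
  · rw [mul_mulVec, mul_mulVec, c1, p1, p2, hw]
  · rw [mul_mulVec, mul_mulVec, c2, Matrix.mulVec_sub, Matrix.mulVec_smul, p1, p2, h2]

lemma mem_closure_of_tr [IsAlgClosed K] {x g : SL(2, K)} {v : Fin 2 → K}
    (h : D v (x.1 *ᵥ v) ≠ 0) (hg : tr g = tr x) : g ∈ zariskiClosure {y | IsConj x y} := by
  have conj : ∀ y : SL(2, K), tr y = tr x → ∀ u, D u (y.1 *ᵥ u) ≠ 0 → IsConj x y := by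
    intro y hy u hu
    have := isConj_comp hu
    rw [hy] at this
    exact (isConj_comp h).symm.trans this
  by_cases hs : ∀ u, D u (g.1 *ᵥ u) = 0
  · obtain ⟨a, ha⟩ := scalar_of_D hs
    have ha0 : a ≠ 0 := by
      rintro rfl
      exact mulVec_ne_zero g (v := ![1, 0]) ((ne_zero_iff _).2 (Or.inl (by simp)))
        (by rw [ha, zero_smul])
    intro p hp
    let Q : Polynomial K := MvPolynomial.aeval (fun ij : Fin 2 × Fin 2 =>
      Polynomial.C (g.1 ij.1 ij.2) +
        Polynomial.C (if ij.2 = 1 then g.1 ij.1 0 else 0) * Polynomial.X) p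
    have hQ : ∀ s : K, Q.eval s = MvPolynomial.aeval (entries (g * N ![1, 0] s)) p := by
      intro s
      rw [← Polynomial.coe_aeval_eq_eval]
      show ((Polynomial.aeval s).comp (MvPolynomial.aeval _)) p = _
      rw [MvPolynomial.comp_aeval]
      congr 2
      funext ij
      obtain ⟨i, j⟩ := ij
      fin_cases j <;>
        simp [entries, N_val, Matrix.mul_apply, Fin.sum_univ_two, add_comm]
    have hroot : ∀ s : K, s ≠ 0 → Q.IsRoot s := by
      intro s hs0
      rw [Polynomial.IsRoot, hQ]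
      apply hp
      refine ⟨_, conj _ ?_ ![0, 1] ?_, rfl⟩
      · rw [tr_mul_N, hs, hg]; ring
      · rw [mul_mulVec, ha, N_mulVec, D_smul_right]
        simp [D, ha0, hs0]
    have hQ0 : Q = 0 := by
      apply Polynomial.eq_zero_of_infinite_isRoot
      exact ((Set.finite_singleton (0 : K)).infinite_compl).mono fun s hs0 => hroot s hs0
    have h0 := hQ 0
    have : N (![1, 0] : Fin 2 → K) 0 = 1 := by
      apply Subtype.ext
      ext i j
      fin_cases i <;> fin_cases j <;> simp [N_val]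
    rw [this, mul_one, hQ0, Polynomial.eval_zero] at h0
    exact h0.symm
  · push Not at hs
    obtain ⟨u, hu⟩ := hs
    exact MvPolynomial.zeroLocus_vanishingIdeal_le _ ⟨g, conj g hg u hu, rfl⟩

variable {F : Type*} [Field F]

lemma tr_map (g : SL(2, F)) :
    tr (SpecialLinearGroup.map (algebraMap F (AlgebraicClosure F)) g) =
      algebraMap F (AlgebraicClosure F) (tr g) := by
  simp [tr]

lemma classClosure_eq {x : SL(2, AlgebraicClosure F)} {v : Fin 2 → AlgebraicClosure F}
    (h : D v (x.1 *ᵥ v) ≠ 0) {τ : F} (hτ : algebraMap F (AlgebraicClosure F) τ = tr x) :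
    classClosure F x = {g | tr g = τ} := by
  ext g
  constructor
  · intro hg
    have := tr_of_mem_closure hg
    rw [tr_map, ← hτ] at this
    exact (algebraMap F (AlgebraicClosure F)).injective this
  · intro hg
    have hg' : tr g = τ := hg
    exact mem_closure_of_tr h (by rw [tr_map, hg', hτ])

lemma classClosure_cases (x : SL(2, AlgebraicClosure F)) :
    (classClosure F x).Subsingleton ∨ ∃ τ : F, classClosure F x = {g | tr g = τ} := by
  by_cases hs : ∀ u, D u (x.1 *ᵥ u) = 0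
  · left
    intro a ha b hb
    have e := (eq_of_mem_closure_scalar hs ha).trans (eq_of_mem_closure_scalar hs hb).symm
    apply Subtype.ext
    ext i j
    apply (algebraMap F (AlgebraicClosure F)).injective
    have := congrFun (congrFun (congrArg Subtype.val e) i) j
    simpa using this
  · push Not at hs
    obtain ⟨u, hu⟩ := hs
    rcases (classClosure F x).eq_empty_or_nonempty with h | ⟨g, hg⟩
    · left; rw [h]; exact Set.subsingleton_empty
    · right
      exact ⟨tr g, classClosure_eq hu (by rw [← tr_map]; exact tr_of_mem_closure hg)⟩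

lemma classClosure_comp (τ : F) :
    classClosure F (comp (algebraMap F (AlgebraicClosure F) τ)) = {g | tr g = τ} :=
  classClosure_eq (v := ![1, 0])
    (by simp [D, comp_val, Matrix.mulVec, dotProduct, Fin.sum_univ_two]) (tr_comp _).symm

end Closure

section Small

variable {F : Type*} [Field F] [Fintype F] [DecidableEq F]

omit [DecidableEq F] in
lemma weak_all {τ : F} (hτ : ∀ m : F, m ^ 2 - τ * m + 1 ≠ 0) (f : {g : SL(2, F) | tr g = τ} → ℂ) :
    f ∈ weakSpace F {g : SL(2, F) | tr g = τ} := by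
  rw [mem_weakSpace_iff]
  intro g v hv h
  exfalso
  have h0 : tr (g * N v 0) = τ := h 0
  have h1 : tr (g * N v 1) = τ := h 1
  rw [tr_mul_N] at h0 h1
  obtain ⟨c, hc⟩ := exists_smul_of_D hv (u := g.1 *ᵥ v) (by linear_combination h1 - h0)
  have := root_of_eigen g hv hc
  rw [show tr g = τ by linear_combination h0] at this
  exact hτ c this

/-- An element of `SL_2` from its four entries. -/
def mk4 (a b c d : F) (h : a * d - b * c = 1) : SL(2, F) :=
  ⟨!![a, b; c, d], by rw [Matrix.det_fin_two_of]; exact h⟩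

/-- A function on `SL_2` read on quadruples. -/
noncomputable def ext4 (φ : SL(2, F) → ℂ) (a b c d : F) : ℂ :=
  if h : a * d - b * c = 1 then φ (mk4 a b c d h) else 0

omit [Fintype F] in
lemma ext4_eq (φ : SL(2, F) → ℂ) (g : SL(2, F)) :
    φ g = ext4 φ (g.1 0 0) (g.1 0 1) (g.1 1 0) (g.1 1 1) := by
  unfold ext4
  rw [dif_pos (det_eq g)]
  congr 1
  apply Subtype.ext
  ext i j
  fin_cases i <;> fin_cases j <;> rfl

lemma ext4_line {φ : SL(2, F) → ℂ} (hφ : IsCuspidal F φ) (a b c d : F) (h : a * d - b * c = 1)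
    (x y : F) (hxy : x ≠ 0 ∨ y ≠ 0) :
    ∑ s : F, ext4 φ (a - s * y * (a * x + b * y)) (b + s * x * (a * x + b * y))
      (c - s * y * (c * x + d * y)) (d + s * x * (c * x + d * y)) = 0 := by
  rw [isCuspidal_iff] at hφ
  rw [← hφ (mk4 a b c d h) ![x, y] ((ne_zero_iff _).2 (by simpa using hxy))]
  apply Finset.sum_congr rfl
  intro s _
  have e : (mk4 a b c d h * N ![x, y] s).1 = !![a, b; c, d] * (N ![x, y] s).1 := rfl
  rw [ext4_eq φ (mk4 a b c d h * _), e]
  congr 1 <;> simp [N_val, Matrix.mul_apply, Fin.sum_univ_two] <;> ring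

omit [Fintype F] in
lemma ext4_val {τ : F} {φ : SL(2, F) → ℂ}
    (hf : ∀ y : {g : SL(2, F) | tr g = τ}, (if y.1.1 0 0 = 0 then (1 : ℂ) else 0) = φ y)
    (a b c d : F) (h : a * d - b * c = 1) (ht : a + d = τ) :
    ext4 φ a b c d = if a = 0 then 1 else 0 := by
  unfold ext4
  rw [dif_pos h]
  exact (hf ⟨mk4 a b c d h, ht⟩).symm

lemma fail_two (hq : Fintype.card F = 2) :
    cuspSpace F {g : SL(2, F) | tr g = 1} ≠ weakSpace F {g : SL(2, F) | tr g = 1} := by
  have h2 : (2 : F) = 0 := by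
    have := FiniteField.cast_card_eq_zero F
    rw [hq] at this
    exact_mod_cast this
  have hall : ∀ a : F, a = 0 ∨ a = -1 := by
    intro a
    have := FiniteField.pow_card a
    rw [hq] at this
    have h : a * (a + 1) = 0 := by linear_combination this + a * h2
    rcases mul_eq_zero.1 h with h | h
    · exact Or.inl h
    · exact Or.inr (by linear_combination h)
  have hsum : ∀ f : F → ℂ, ∑ s, f s = f 0 + f (-1) := by
    intro f
    have : (univ : Finset F) = {0, -1} := by
      ext a; simpa using hall a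
    rw [this, Finset.sum_pair (by simp)]
  intro e
  have hw := weak_all (τ := (1 : F)) (fun m hm => by
    rcases hall m with rfl | rfl
    · simp at hm
    · exact one_ne_zero (α := F) (by linear_combination hm - h2))
    (fun y => if y.1.1 0 0 = 0 then 1 else 0)
  rw [← e] at hw
  obtain ⟨φ, hφ, hf⟩ := hw
  have l1 := ext4_line hφ 0 (-1) 1 1 (by ring) 1 0 (Or.inl one_ne_zero)
  have l2 := ext4_line hφ 1 (-1) 1 0 (by ring) 0 1 (Or.inr one_ne_zero)
  rw [hsum] at l1 l2
  have v1 := ext4_val hf 0 (-1) 1 1 (by ring) (by ring)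
  have v2 := ext4_val hf 1 (-1) 1 0 (by ring) (by ring)
  norm_num at l1 l2 v1 v2
  exact one_ne_zero (α := ℂ) (by linear_combination l1 - l2 - v1 + v2)

lemma fail_three (hq : Fintype.card F = 3) :
    cuspSpace F {g : SL(2, F) | tr g = 0} ≠ weakSpace F {g : SL(2, F) | tr g = 0} := by
  have h3 : (3 : F) = 0 := by
    have := FiniteField.cast_card_eq_zero F
    rw [hq] at this
    exact_mod_cast this
  have h2 : (2 : F) ≠ 0 := fun h => one_ne_zero (α := F) (by linear_combination h3 - h)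
  have hall : ∀ a : F, a = 0 ∨ a = 1 ∨ a = -1 := by
    intro a
    have := FiniteField.pow_card a
    rw [hq] at this
    have h : a * ((a - 1) * (a + 1)) = 0 := by linear_combination this
    rcases mul_eq_zero.1 h with h | h
    · exact Or.inl h
    · rcases mul_eq_zero.1 h with h | h
      · exact Or.inr (Or.inl (by linear_combination h))
      · exact Or.inr (Or.inr (by linear_combination h))
  have hsum : ∀ f : F → ℂ, ∑ s, f s = f 0 + (f 1 + f (-1)) := by
    intro f
    have : (univ : Finset F) = {0, 1, -1} := by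
      ext a; simpa using hall a
    rw [this, Finset.sum_insert (by simp),
      Finset.sum_pair (fun h => h2 (by linear_combination h))]
  intro e
  have hw := weak_all (τ := (0 : F)) (fun m hm => by
    rcases hall m with rfl | rfl | rfl
    · simp at hm
    · exact h2 (by linear_combination hm)
    · exact h2 (by linear_combination hm))
    (fun y => if y.1.1 0 0 = 0 then 1 else 0)
  rw [← e] at hw
  obtain ⟨φ, hφ, hf⟩ := hw
  have l1 := ext4_line hφ 0 1 (-1) 0 (by ring) 1 0 (Or.inl one_ne_zero)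
  have l2 := ext4_line hφ 0 (-1) 1 0 (by ring) 1 1 (Or.inl one_ne_zero)
  have l3 := ext4_line hφ 1 (-1) (-1) (-1) (by linear_combination -h3) 1 (-1) (Or.inl one_ne_zero)
  have l4 := ext4_line hφ (-1) 1 1 1 (by linear_combination -h3) 0 1 (Or.inr one_ne_zero)
  rw [hsum] at l1 l2 l3 l4
  have v1 := ext4_val hf 0 1 (-1) 0 (by ring) (by ring)
  have v2 := ext4_val hf 0 (-1) 1 0 (by ring) (by ring)
  have v3 := ext4_val hf 1 (-1) (-1) (-1) (by linear_combination -h3) (by ring)
  have v4 := ext4_val hf (-1) 1 1 1 (by linear_combination -h3) (by ring)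
  have t2 : (2 : F) = -1 := by linear_combination h3
  norm_num at l1 l2 l3 l4 v1 v2 v3 v4
  rw [t2, neg_neg] at l2
  rw [h3, neg_zero] at l3
  rw [t2, neg_neg] at l4
  have : (2 : ℂ) = 0 := by linear_combination l1 + l2 - l3 - l4 - v1 - v2 + v3 + v4
  norm_num at this

end Small

end Pool.Agent.MP_21a573_al.SL
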