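import Pool.Agent.MP_21a573_al.SL.Kernel

/-!
The maximum principle and the extension theorem.
-/

open scoped MatrixGroups
open Matrix Finset

namespace Pool.Agent.MP_21a573_al.SL

variable {F : Type*} [Field F] [Fintype F] [DecidableEq F]

/-- Convolution with the kernel. -/
noncomputable def opA (h : SL(2, F) → ℝ) (x : SL(2, F)) : ℝ := ∑ y, h y * kap (y⁻¹ * x)

lemma opA_line (h : SL(2, F) → ℝ) (g : SL(2, F)) {v : Fin 2 → F} (hv : v ≠ 0) :
    ∑ s : F, opA h (g * N v s) = 0 := by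
  unfold opA
  rw [Finset.sum_comm]
  apply Finset.sum_eq_zero
  intro y _
  rw [← Finset.mul_sum]
  simp only [← mul_assoc]
  rw [kap_line _ hv, mul_zero]

/-- The sum of `h` over the elements sending `u` to `w`. -/
noncomputable def rad (h : SL(2, F) → ℝ) (u w : Fin 2 → F) : ℝ :=
  ∑ y, if y.1 *ᵥ u = w then h y else 0

lemma sum_mul_cnt (h : SL(2, F) → ℝ) (x : SL(2, F)) (t : F) :
    ∑ y, h y * cnt (y⁻¹ * x) t =
      ∑ u : Fin 2 → F, if u ≠ 0 then rad h u (t • (x.1 *ᵥ u)) else 0 := by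
  unfold cnt rad
  simp only [Finset.mul_sum]
  rw [Finset.sum_comm]
  apply Finset.sum_congr rfl
  intro u _
  by_cases hu : u = 0
  · simp only [hu, ne_eq, not_true, false_and, if_false, mul_zero, sum_const_zero]
  · simp only [hu, ne_eq, not_false_eq_true, true_and, if_true]
    apply Finset.sum_congr rfl
    intro y _
    have : (u = t • ((y⁻¹ * x).1 *ᵥ u)) ↔ y.1 *ᵥ u = t • (x.1 *ᵥ u) := by
      rw [mul_mulVec, ← Matrix.mulVec_smul]
      constructor
      · intro e
        conv_lhs => rw [e]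
        rw [mulVec_inv]
      · intro e
        rw [← e, inv_mulVec]
    simp only [this, mul_ite, mul_one, mul_zero]

lemma opA_eq (h : SL(2, F) → ℝ) (x : SL(2, F)) :
    opA h x = (Fintype.card F + 1) *
        (∑ u : Fin 2 → F, if u ≠ 0 then rad h u ((1 : F) • (x.1 *ᵥ u)) else 0) +
      ∑ t : F, (if t ≠ 0 then
        (∑ u : Fin 2 → F, if u ≠ 0 then rad h u (t • (x.1 *ᵥ u)) else 0) else 0) -
      2 * Fintype.card F * ((Fintype.card F : ℝ) ^ 2 - 1) * h x -
      2 * ((Fintype.card F : ℝ) - 1) * ∑ y, h y := by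
  simp only [← sum_mul_cnt]
  unfold opA kap
  simp only [mul_sub, mul_add, Finset.sum_sub_distrib, Finset.sum_add_distrib]
  congr 1
  · congr 1
    · congr 1
      · rw [Finset.mul_sum]
        exact Finset.sum_congr rfl fun y _ => by ring
      · simp only [Finset.mul_sum]
        rw [Finset.sum_comm]
        apply Finset.sum_congr rfl
        intro t _
        split_ifs <;> simp
    · have : ∀ y : SL(2, F), (y⁻¹ * x = 1) ↔ y = x := fun y => inv_mul_eq_one
      simp only [this, mul_ite, mul_zero, Finset.sum_ite_eq', mem_univ, if_true]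
      ring
  · rw [← Finset.sum_sub_distrib, Finset.mul_sum]
    exact Finset.sum_congr rfl fun y _ => by ring

lemma rad_eq (h : SL(2, F) → ℝ) (g : SL(2, F)) {u : Fin 2 → F} (hu : u ≠ 0) :
    rad h u (g.1 *ᵥ u) = ∑ s : F, h (g * N u s) := by
  unfold rad
  rw [← Finset.sum_filter]
  have : univ.filter (fun y : SL(2, F) => y.1 *ᵥ u = g.1 *ᵥ u) =
      univ.image (fun s : F => g * N u s) := by
    ext y
    simp only [mem_filter, mem_univ, true_and, mem_image]
    constructor
    · intro e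
      obtain ⟨s, hs⟩ := exists_N_of_fix hu (z := g⁻¹ * y) (by rw [mul_mulVec, e, inv_mulVec])
      exact ⟨s, by rw [← hs, mul_inv_cancel_left]⟩
    · rintro ⟨s, rfl⟩
      rw [mul_mulVec, N_fix]
  rw [this, Finset.sum_image]
  intro a _ b _ e
  exact N_injective hu (mul_left_cancel e)

/-- Every coset lies inside `X` or meets it in at most one point. -/
def Thin (X : Set SL(2, F)) : Prop :=
  ∀ g : SL(2, F), ∀ v : Fin 2 → F, v ≠ 0 →
    (∀ s, g * N v s ∈ X) ∨ ∀ s s', g * N v s ∈ X → g * N v s' ∈ X → s = s'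

/-- Real functions supported on `X` whose sums over cosets inside `X` vanish. -/
def Wk (X : Set SL(2, F)) : Submodule ℝ (SL(2, F) → ℝ) where
  carrier := {h | (∀ y, y ∉ X → h y = 0) ∧ ∀ g : SL(2, F), ∀ v : Fin 2 → F, v ≠ 0 →
    (∀ s, g * N v s ∈ X) → ∑ s : F, h (g * N v s) = 0}
  add_mem' := by
    rintro a b ⟨a1, a2⟩ ⟨b1, b2⟩
    refine ⟨fun y hy => by simp [a1 y hy, b1 y hy], fun g v hv hX => ?_⟩
    simp only [Pi.add_apply, Finset.sum_add_distrib, a2 g v hv hX, b2 g v hv hX, add_zero]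
  zero_mem' := ⟨fun _ _ => rfl, fun _ _ _ _ => by simp⟩
  smul_mem' := by
    rintro c a ⟨a1, a2⟩
    refine ⟨fun y hy => by simp [a1 y hy], fun g v hv hX => ?_⟩
    simp only [Pi.smul_apply, smul_eq_mul, ← Finset.mul_sum, a2 g v hv hX, mul_zero]

lemma rad_cases {X : Set SL(2, F)} (hX : Thin X) {h : SL(2, F) → ℝ} (hh : h ∈ Wk X)
    {u : Fin 2 → F} (hu : u ≠ 0) (w : Fin 2 → F) :
    rad h u w = 0 ∨ ∃ y ∈ X, y.1 *ᵥ u = w ∧ rad h u w = h y := by
  by_cases hy : ∃ y ∈ X, y.1 *ᵥ u = w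
  · obtain ⟨y, hyX, rfl⟩ := hy
    rw [rad_eq h y hu]
    rcases hX y u hu with h1 | h1
    · exact Or.inl (hh.2 y u hu h1)
    · right
      refine ⟨y, hyX, rfl, ?_⟩
      have e0 : y * N u 0 = y := by
        have : N u (0 : F) = 1 := by
          apply Subtype.ext
          ext i j
          fin_cases i <;> fin_cases j <;> simp [N_val]
        rw [this, mul_one]
      rw [Finset.sum_eq_single (0 : F), e0]
      · intro s _ hs
        apply hh.1
        intro hs'
        exact hs (h1 s 0 hs' (by rwa [e0]))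
      · simp
  · left
    apply Finset.sum_eq_zero
    intro y _
    split_ifs with e
    · exact hh.1 y fun hyX => hy ⟨y, hyX, e⟩
    · rfl

/-- The connectivity property used in the maximum principle. -/
def Conn (X : Set SL(2, F)) : Prop :=
  ∀ S : Set SL(2, F), S ⊆ X → S.Nonempty →
    (∀ x ∈ S, ∀ v : Fin 2 → F, v ≠ 0 → ∀ t : F, t ≠ 0 → ∃ y ∈ S, y.1 *ᵥ v = t • (x.1 *ᵥ v)) →
    X ⊆ S

lemma max_step {X : Set SL(2, F)} (hX : Thin X) {h : SL(2, F) → ℝ} (hh : h ∈ Wk X)
    (hσ : 0 ≤ ∑ y, h y) {x : SL(2, F)} (hM : ∀ y, h y ≤ h x) (hpos : 0 < h x)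
    (hA : opA h x = 0) :
    ∑ y, h y = 0 ∧ ∀ v : Fin 2 → F, v ≠ 0 → ∀ t : F, t ≠ 0 →
      ∃ y ∈ X, h y = h x ∧ y.1 *ᵥ v = t • (x.1 *ᵥ v) := by
  have hq : (1 : ℝ) < Fintype.card F := by exact_mod_cast Fintype.one_lt_card
  have hle : ∀ u w : Fin 2 → F, u ≠ 0 → rad h u w ≤ h x := by
    intro u w hu
    rcases rad_cases hX hh hu w with e | ⟨y, -, -, e⟩
    · rw [e]; exact hpos.le
    · rw [e]; exact hM y
  set dd : F → ℝ := fun t =>
    ∑ u : Fin 2 → F, if u ≠ 0 then h x - rad h u (t • (x.1 *ᵥ u)) else 0 with hdd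
  have hterm : ∀ (t : F) (u : Fin 2 → F),
      0 ≤ if u ≠ 0 then h x - rad h u (t • (x.1 *ᵥ u)) else 0 := by
    intro t u
    split_ifs with hu
    · exact sub_nonneg.2 (hle _ _ hu)
    · exact le_rfl
  have hd0 : ∀ t, 0 ≤ dd t := fun t => Finset.sum_nonneg fun u _ => hterm t u
  have hde : ∀ t : F, (∑ u : Fin 2 → F, if u ≠ 0 then rad h u (t • (x.1 *ᵥ u)) else 0) =
      ((Fintype.card F : ℝ) ^ 2 - 1) * h x - dd t := by
    intro t
    rw [← sum_vec_ne_zero, hdd, ← Finset.sum_sub_distrib]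
    apply Finset.sum_congr rfl
    intro u _
    split_ifs <;> ring
  rw [opA_eq] at hA
  simp only [hde] at hA
  have hsum : ∑ t : F, (if t ≠ 0 then ((Fintype.card F : ℝ) ^ 2 - 1) * h x - dd t else 0) =
      (Fintype.card F - 1) * (((Fintype.card F : ℝ) ^ 2 - 1) * h x) -
        ∑ t : F, (if t ≠ 0 then dd t else 0) := by
    rw [← sum_ne_zero, ← Finset.sum_sub_distrib]
    apply Finset.sum_congr rfl
    intro t _
    split_ifs <;> ring
  rw [hsum] at hA
  have hterm2 : ∀ t : F, 0 ≤ if t ≠ 0 then dd t else 0 := by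
    intro t
    split_ifs
    · exact hd0 t
    · exact le_rfl
  have hE : 0 ≤ ∑ t : F, (if t ≠ 0 then dd t else 0) := Finset.sum_nonneg fun t _ => hterm2 t
  have h1 : 0 ≤ ((Fintype.card F : ℝ) + 1) * dd 1 := mul_nonneg (by linarith) (hd0 1)
  have h2 : 0 ≤ 2 * ((Fintype.card F : ℝ) - 1) * ∑ y, h y :=
    mul_nonneg (by linarith) hσ
  have h3 : ((Fintype.card F : ℝ) + 1) * dd 1 + ∑ t : F, (if t ≠ 0 then dd t else 0) +
      2 * ((Fintype.card F : ℝ) - 1) * ∑ y, h y = 0 := by linear_combination -hA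
  refine ⟨?_, fun v hv t ht => ?_⟩
  · have : 2 * ((Fintype.card F : ℝ) - 1) * ∑ y, h y = 0 := by linarith
    exact (mul_eq_zero.1 this).resolve_left (by linarith)
  · have e1 : ∑ t : F, (if t ≠ 0 then dd t else 0) = 0 := by linarith
    have e2 := (Finset.sum_eq_zero_iff_of_nonneg fun t _ => hterm2 t).1 e1 t (mem_univ t)
    rw [if_pos ht] at e2
    have e3 := (Finset.sum_eq_zero_iff_of_nonneg fun u _ => hterm t u).1 e2 v (mem_univ v)
    rw [if_pos hv] at e3
    rcases rad_cases hX hh hv (t • (x.1 *ᵥ v)) with e | ⟨y, hy, e, e'⟩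
    · linarith
    · exact ⟨y, hy, by linarith, e⟩

lemma eq_zero_of_nonneg {X : Set SL(2, F)} (hX : Thin X) (hC : Conn X) {h : SL(2, F) → ℝ}
    (hh : h ∈ Wk X) (hσ : 0 ≤ ∑ y, h y) (hA : ∀ x ∈ X, opA h x = 0) : h = 0 := by
  obtain ⟨x, hM⟩ := Finite.exists_max h
  by_cases hpos : 0 < h x
  · exfalso
    have hmem : ∀ y, h y = h x → y ∈ X := by
      intro y hy
      by_contra hyX
      rw [hh.1 y hyX] at hy
      linarith
    have hall := hC {y | h y = h x} hmem ⟨x, rfl⟩ (by
      intro y hy v hv t ht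
      have hy' : h y = h x := hy
      obtain ⟨z, -, hz1, hz2⟩ := (max_step hX hh hσ (x := y) (by rw [hy']; exact hM)
        (by rw [hy']; exact hpos) (hA y (hmem y hy'))).2 v hv t ht
      exact ⟨z, hz1.trans hy', hz2⟩)
    have h0 := (max_step hX hh hσ hM hpos (hA x (hmem x rfl))).1
    have hnn : ∀ y, 0 ≤ h y := by
      intro y
      by_cases hy : y ∈ X
      · have : h y = h x := hall hy
        linarith
      · rw [hh.1 y hy]
    have := (Finset.sum_eq_zero_iff_of_nonneg fun y _ => hnn y).1 h0 x (mem_univ x)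
    linarith
  · have hnp : ∀ y, h y ≤ 0 := fun y => (hM y).trans (not_lt.1 hpos)
    have h0 : ∑ y, h y = 0 := le_antisymm (Finset.sum_nonpos fun y _ => hnp y) hσ
    funext y
    exact (Finset.sum_eq_zero_iff_of_nonpos fun y _ => hnp y).1 h0 y (mem_univ y)

lemma eq_zero_of_opA {X : Set SL(2, F)} (hX : Thin X) (hC : Conn X) {h : SL(2, F) → ℝ}
    (hh : h ∈ Wk X) (hA : ∀ x ∈ X, opA h x = 0) : h = 0 := by
  rcases le_total 0 (∑ y, h y) with hσ | hσ
  · exact eq_zero_of_nonneg hX hC hh hσ hA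
  · have := eq_zero_of_nonneg hX hC ((Wk X).neg_mem hh)
      (by simp only [Pi.neg_apply, Finset.sum_neg_distrib]; linarith)
      (fun x hx => by
        have := hA x hx
        unfold opA at this ⊢
        simp only [Pi.neg_apply, neg_mul, Finset.sum_neg_distrib, this, neg_zero])
    exact neg_eq_zero.1 this

open Classical in
/-- The operator, cut off to `X`. -/
noncomputable def opT (X : Set SL(2, F)) : Wk X →ₗ[ℝ] Wk X where
  toFun h := ⟨fun x => if x ∈ X then opA h.1 x else 0, fun y hy => if_neg hy,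
    fun g v hv hX => by simp only [hX, if_true]; exact opA_line _ g hv⟩
  map_add' a b := by
    apply Subtype.ext
    funext x
    simp only [Submodule.coe_add, Pi.add_apply, opA, add_mul, Finset.sum_add_distrib]
    split_ifs <;> simp
  map_smul' c a := by
    apply Subtype.ext
    funext x
    simp only [Submodule.coe_smul, Pi.smul_apply, opA, smul_eq_mul, RingHom.id_apply, mul_assoc,
      ← Finset.mul_sum]
    split_ifs <;> simp

lemma exists_ext_real {X : Set SL(2, F)} (hX : Thin X) (hC : Conn X) {f : SL(2, F) → ℝ}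
    (hf : f ∈ Wk X) : ∃ φ : SL(2, F) → ℝ,
      (∀ g : SL(2, F), ∀ v : Fin 2 → F, v ≠ 0 → ∑ s : F, φ (g * N v s) = 0) ∧
      ∀ x ∈ X, f x = φ x := by
  have hinj : Function.Injective (opT X) := by
    rw [injective_iff_map_eq_zero]
    intro h h0
    apply Subtype.ext
    apply eq_zero_of_opA hX hC h.2
    intro x hx
    have := congrFun (congrArg Subtype.val h0) x
    simpa [opT, hx] using this
  obtain ⟨h, hh⟩ := LinearMap.injective_iff_surjective.1 hinj ⟨f, hf⟩
  refine ⟨opA h.1, fun g v hv => opA_line _ g hv, fun x hx => ?_⟩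
  have := congrFun (congrArg Subtype.val hh) x
  simpa [opT, hx] using this.symm

theorem weak_subset_cusp {X : Set SL(2, F)} (hX : Thin X) (hC : Conn X) :
    weakSpace F X ⊆ cuspSpace F X := by
  classical
  intro f hf
  rw [mem_weakSpace_iff] at hf
  have key : ∀ L : ℂ →+ ℝ,
      (fun y => if hy : y ∈ X then L (f ⟨y, hy⟩) else 0) ∈ Wk X := by
    intro L
    refine ⟨fun y hy => dif_neg hy, fun g v hv h => ?_⟩
    simp only [h, dif_pos]
    rw [← map_sum, hf g v hv h, map_zero]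
  obtain ⟨φ1, a1, b1⟩ := exists_ext_real hX hC (key Complex.reAddGroupHom)
  obtain ⟨φ2, a2, b2⟩ := exists_ext_real hX hC (key Complex.imAddGroupHom)
  refine ⟨fun y => φ1 y + φ2 y * Complex.I, ?_, fun y => ?_⟩
  · rw [isCuspidal_iff]
    intro g v hv
    rw [Finset.sum_add_distrib, ← Finset.sum_mul, ← Complex.ofReal_sum, ← Complex.ofReal_sum,
      a1 g v hv, a2 g v hv]
    simp
  · have e1 := b1 y y.2
    have e2 := b2 y y.2
    simp only [y.2, dif_pos] at e1 e2
    show f y = φ1 y + φ2 y * Complex.I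
    rw [← e1, ← e2]
    exact (Complex.re_add_im _).symm

end Pool.Agent.MP_21a573_al.SL
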