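import Mathlib

/-!
Definitions for the cuspidal restriction problem, for the split semisimple group `SL_2`.
-/

open scoped MatrixGroups
open Matrix

namespace Pool.Agent.MP_21a573_al.SL

/-- The `F`-points of the unipotent radical of the Borel subgroup of `SL_2` that stabilises
the line `l` in `F^2`: the elements acting trivially on `l` and on `F^2 / l`. -/
def unipRad (F : Type*) [Field F] (l : Submodule F (Fin 2 → F)) : Set SL(2, F) :=
  {u | (∀ v : Fin 2 → F, u.1.mulVec v - v ∈ l) ∧ ∀ v ∈ l, u.1.mulVec v = v}

/-- The unipotent radicals of the proper parabolic `F`-subgroups of `SL_2`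
(the stabilisers of the lines in `F^2`). -/
def unipRadicals (F : Type*) [Field F] : Set (Set SL(2, F)) :=
  {U | ∃ l : Submodule F (Fin 2 → F), Module.finrank F l = 1 ∧ U = unipRad F l}

/-- A function on `SL_2(F)` is cuspidal if its sum over every coset `gU` vanishes. -/
def IsCuspidal (F : Type*) [Field F] (φ : SL(2, F) → ℂ) : Prop :=
  ∀ g : SL(2, F), ∀ U ∈ unipRadicals F, ∑ᶠ u : U, φ (g * u) = 0

/-- The four entries of a matrix of determinant one, as a point of affine 4-space. -/
def entries {K : Type*} [Field K] (g : SL(2, K)) : Fin 2 × Fin 2 → K :=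
  fun ij => g.1 ij.1 ij.2

/-- Zariski closure in `SL_2(K)`: the elements at which every polynomial in the four entries
vanishes that vanishes on `S`. -/
def zariskiClosure {K : Type*} [Field K] (S : Set SL(2, K)) : Set SL(2, K) :=
  {g | entries g ∈ MvPolynomial.zeroLocus K (MvPolynomial.vanishingIdeal K (entries '' S))}

/-- The set of `F`-points of the Zariski closure of the geometric conjugacy class of `x`,
a point of `SL_2` over the algebraic closure of `F`. -/
def classClosure (F : Type*) [Field F] (x : SL(2, AlgebraicClosure F)) : Set SL(2, F) :=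
  SpecialLinearGroup.map (algebraMap F (AlgebraicClosure F)) ⁻¹' zariskiClosure {y | IsConj x y}

/-- The space `S_w(X)`: functions on `X` whose sum over every coset `gU` inside `X` vanishes. -/
def weakSpace (F : Type*) [Field F] (X : Set SL(2, F)) : Set (X → ℂ) :=
  {f | ∀ g : SL(2, F), ∀ U ∈ unipRadicals F, ∀ h : ∀ u ∈ U, g * u ∈ X,
    ∑ᶠ u : U, f ⟨g * u, h u u.2⟩ = 0}

/-- The space `S_cusp(X)`: restrictions to `X` of cuspidal functions on `SL_2(F)`. -/
def cuspSpace (F : Type*) [Field F] (X : Set SL(2, F)) : Set (X → ℂ) :=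
  {f | ∃ φ : SL(2, F) → ℂ, IsCuspidal F φ ∧ ∀ y : X, f y = φ y}

end Pool.Agent.MP_21a573_al.SL
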