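import Pool.Agent.MP_21a573_al.SL.Lines

/-!
An explicit kernel on `SL_2(F)` whose sums over all cosets of unipotent radicals vanish.
-/

open scoped MatrixGroups
open Matrix Finset

namespace Pool.Agent.MP_21a573_al.SL

variable {F : Type*} [Field F] [Fintype F] [DecidableEq F]

lemma sum_perp {p : Fin 2 → F} (hp : p ≠ 0) (f : (Fin 2 → F) → ℝ) :
    ∑ u, (if D p u = 0 then f u else 0) = ∑ c : F, f (c • p) := by
  rw [← Finset.sum_filter]
  have : univ.filter (fun u => D p u = 0) = univ.image (fun c : F => c • p) := by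
    ext u
    simp only [mem_filter, mem_univ, true_and, mem_image]
    constructor
    · intro h
      obtain ⟨c, hc⟩ := exists_smul_of_D hp h
      exact ⟨c, hc.symm⟩
    · rintro ⟨c, rfl⟩
      rw [D_smul_right, D_self, mul_zero]
  rw [this, Finset.sum_image]
  intro a _ b _ h
  exact smul_left_injective F hp h

lemma sum_ne_zero (a : ℝ) : ∑ c : F, (if c ≠ 0 then a else 0) = (Fintype.card F - 1) * a := by
  have h1 : ∀ c : F, (if c ≠ 0 then a else 0) = a - if c = 0 then a else 0 := by
    intro c; by_cases h : c = 0 <;> simp [h]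
  simp only [h1, Finset.sum_sub_distrib, Finset.sum_ite_eq', mem_univ, if_true, sum_const,
    card_univ, nsmul_eq_mul]
  ring

lemma sum_vec_ne_zero (a : ℝ) :
    ∑ u : Fin 2 → F, (if u ≠ 0 then a else 0) = ((Fintype.card F : ℝ) ^ 2 - 1) * a := by
  have h1 : ∀ c : Fin 2 → F, (if c ≠ 0 then a else 0) = a - if c = 0 then a else 0 := by
    intro c; by_cases h : c = 0 <;> simp [h]
  simp only [h1, Finset.sum_sub_distrib, Finset.sum_ite_eq', mem_univ, if_true, sum_const,
    card_univ, nsmul_eq_mul, Fintype.card_fun, Fintype.card_fin, Nat.cast_pow]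
  ring

/-- The number of nonzero vectors `u` with `u = t z u`. -/
noncomputable def cnt (z : SL(2, F)) (t : F) : ℝ :=
  ∑ u : Fin 2 → F, if u ≠ 0 ∧ u = t • (z.1 *ᵥ u) then 1 else 0

lemma inner_sum (z : SL(2, F)) {v : Fin 2 → F} (hv : v ≠ 0) {t : F} (ht : t ≠ 0)
    (u : Fin 2 → F) :
    ∑ s : F, (if u ≠ 0 ∧ u = t • ((z * N v s).1 *ᵥ u) then (1 : ℝ) else 0) =
      (if D v u = 0 then (if u ≠ 0 then
        (if v = t • (z.1 *ᵥ v) then (Fintype.card F : ℝ) else 0) else 0) else 0) +
      (if D (z.1 *ᵥ v - t • v) u = 0 then (if D v u ≠ 0 then 1 else 0) else 0) := by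
  by_cases hD : D v u = 0
  · obtain ⟨c, rfl⟩ := exists_smul_of_D hv hD
    have e : ∀ s : F, (z * N v s).1 *ᵥ (c • v) = c • (z.1 *ᵥ v) := by
      intro s
      rw [mul_mulVec, Matrix.mulVec_smul, N_fix, Matrix.mulVec_smul]
    simp only [e, hD, if_true, ne_eq, not_true, if_false, ite_self, add_zero, sum_const,
      card_univ, nsmul_eq_mul]
    by_cases hc : c • v = 0
    · simp [hc]
    · have hc0 : c ≠ 0 := by rintro rfl; simp at hc
      have : (c • v = t • c • (z.1 *ᵥ v)) ↔ v = t • (z.1 *ᵥ v) := by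
        rw [smul_comm t c]
        exact (smul_right_injective _ hc0).eq_iff
      simp only [hc, not_false_eq_true, true_and, this, if_true]
      split_ifs <;> simp
  · have hu : u ≠ 0 := by rintro rfl; exact hD (D_zero_right v)
    have hw := mulVec_ne_zero z hv
    simp only [hD, if_false, zero_add, ne_eq, not_false_eq_true, if_true, hu, true_and]
    have e : ∀ s : F, (z * N v s).1 *ᵥ u = z.1 *ᵥ u + (s * D v u) • (z.1 *ᵥ v) := by
      intro s
      rw [mul_mulVec, N_mulVec, Matrix.mulVec_add, Matrix.mulVec_smul]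
    simp only [e]
    have hk : D (z.1 *ᵥ v) (u - t • (z.1 *ᵥ u)) = D (z.1 *ᵥ v - t • v) u := by
      rw [D_sub_right, D_smul_right, D_mulVec, D_sub_left, D_smul_left]
    by_cases hp : D (z.1 *ᵥ v - t • v) u = 0
    · rw [if_pos hp]
      obtain ⟨c, hc⟩ := exists_smul_of_D hw (hk.trans hp)
      have : ∀ s : F, (u = t • (z.1 *ᵥ u + (s * D v u) • (z.1 *ᵥ v))) ↔ s = c / (t * D v u) := by
        intro s
        rw [smul_add, smul_smul, ← sub_eq_iff_eq_add', hc,
          (smul_left_injective F hw).eq_iff, eq_div_iff (mul_ne_zero ht hD)]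
        constructor
        · intro h; rw [h]; ring
        · intro h; rw [← h]; ring
      simp only [this, Finset.sum_ite_eq', mem_univ, if_true]
    · rw [if_neg hp]
      apply Finset.sum_eq_zero
      intro s _
      rw [if_neg]
      intro h
      apply hp
      rw [← hk]
      rw [smul_add, smul_smul, ← sub_eq_iff_eq_add'] at h
      rw [h, D_smul_right, D_self, mul_zero]

lemma cnt_line (z : SL(2, F)) {v : Fin 2 → F} (hv : v ≠ 0) {t : F} (ht : t ≠ 0) :
    ∑ s : F, cnt (z * N v s) t =
      (if v = t • (z.1 *ᵥ v) then ((Fintype.card F : ℝ) - 1) * Fintype.card F else 0) +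
      (if z.1 *ᵥ v = t • v then ((Fintype.card F : ℝ) - 1) * Fintype.card F else
        if D v (z.1 *ᵥ v) ≠ 0 then (Fintype.card F : ℝ) - 1 else 0) := by
  unfold cnt
  rw [Finset.sum_comm]
  simp only [inner_sum z hv ht, Finset.sum_add_distrib]
  congr 1
  · rw [sum_perp hv]
    have : ∀ c : F, (c • v ≠ 0) ↔ c ≠ 0 := by
      intro c; simp [hv]
    simp only [this, sum_ne_zero]
    split_ifs <;> simp
  · by_cases hp : z.1 *ᵥ v = t • v
    · rw [if_pos hp, hp, sub_self]
      simp only [D_zero_left, if_true]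
      have h1 : ∀ u : Fin 2 → F, (if D v u ≠ 0 then (1 : ℝ) else 0) =
          1 - if D v u = 0 then 1 else 0 := by
        intro u; by_cases h : D v u = 0 <;> simp [h]
      simp only [h1, Finset.sum_sub_distrib, sum_perp hv (fun _ => (1 : ℝ)), sum_const,
        card_univ, nsmul_eq_mul, Fintype.card_fun, Fintype.card_fin, Nat.cast_pow]
      ring
    · rw [if_neg hp, sum_perp (sub_ne_zero.2 hp) (fun u => if D v u ≠ 0 then (1 : ℝ) else 0)]
      have h1 : ∀ c : F, D v (c • (z.1 *ᵥ v - t • v)) = c * D v (z.1 *ᵥ v) := by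
        intro c
        rw [D_smul_right, D_sub_right, D_smul_right, D_self]; ring
      simp only [h1]
      generalize z.1 *ᵥ v = w
      by_cases hD : D v w = 0
      · simp [hD]
      · have h2 : ∀ c : F, (c * D v w ≠ 0) ↔ c ≠ 0 := by
          intro c; simp [hD]
        simp only [h2, sum_ne_zero]
        simp [hD]

/-- The kernel. -/
noncomputable def kap (z : SL(2, F)) : ℝ :=
  (Fintype.card F + 1) * cnt z 1 + ∑ t : F, (if t ≠ 0 then cnt z t else 0) -
    (if z = 1 then 2 * Fintype.card F * ((Fintype.card F : ℝ) ^ 2 - 1) else 0) -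
    2 * ((Fintype.card F : ℝ) - 1)

lemma kap_line (z : SL(2, F)) {v : Fin 2 → F} (hv : v ≠ 0) : ∑ s : F, kap (z * N v s) = 0 := by
  unfold kap
  simp only [Finset.sum_sub_distrib, Finset.sum_add_distrib, ← Finset.mul_sum, sum_const,
    card_univ, nsmul_eq_mul]
  rw [Finset.sum_comm, cnt_line z hv one_ne_zero]
  have h1 : ∀ t : F, ∑ s : F, (if t ≠ 0 then cnt (z * N v s) t else 0) =
      if t ≠ 0 then ∑ s : F, cnt (z * N v s) t else 0 := by
    intro t; split_ifs <;> simp
  simp only [h1]
  have hw := mulVec_ne_zero z hv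
  by_cases hD : D v (z.1 *ᵥ v) = 0
  · obtain ⟨l, hl⟩ := exists_smul_of_D hv hD
    have hl0 : l ≠ 0 := by rintro rfl; exact hw (by simpa using hl)
    have a1 : ∀ t : F, (v = t • (z.1 *ᵥ v)) ↔ t = l⁻¹ := by
      intro t
      rw [hl, smul_smul]
      conv_lhs => lhs; rw [← one_smul F v]
      rw [(smul_left_injective F hv).eq_iff]
      constructor
      · intro h; exact eq_inv_of_mul_eq_one_left h.symm
      · rintro rfl; rw [inv_mul_cancel₀ hl0]
    have a2 : ∀ t : F, (z.1 *ᵥ v = t • v) ↔ t = l := by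
      intro t
      rw [hl, (smul_left_injective F hv).eq_iff, eq_comm]
    have h2 : ∀ t : F, (if t ≠ 0 then ∑ s : F, cnt (z * N v s) t else 0) =
        (if t = l⁻¹ then ((Fintype.card F : ℝ) - 1) * Fintype.card F else 0) +
        (if t = l then ((Fintype.card F : ℝ) - 1) * Fintype.card F else 0) := by
      intro t
      by_cases ht : t = 0
      · subst ht
        simp [hl0.symm, (inv_ne_zero hl0).symm]
      · rw [if_pos ht, cnt_line z hv ht]
        simp only [a1, a2, hD, ne_eq, not_true, if_false]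
    simp only [h2, Finset.sum_add_distrib, Finset.sum_ite_eq', mem_univ, if_true, a1, a2, hD,
      ne_eq, not_true, if_false]
    by_cases h1 : l = 1
    · subst h1
      obtain ⟨s0, hs0⟩ := exists_N_of_fix hv (z := z⁻¹) (by
        have := inv_mulVec z v
        rwa [hl, one_smul] at this)
      have h3 : ∀ s : F, (z * N v s = 1) ↔ s = s0 := by
        intro s
        rw [mul_eq_one_iff_inv_eq, hs0, (N_injective hv).eq_iff, eq_comm]
      simp only [h3, Finset.sum_ite_eq', mem_univ, if_true, inv_one]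
      ring
    · have h3 : ∀ s : F, ¬ (z * N v s = 1) := by
        intro s h
        have : (z * N v s).1 *ᵥ v = v := by rw [h]; simp
        rw [mul_mulVec, N_fix] at this
        exact h1 ((a2 1).1 (by rw [this, one_smul])).symm
      have h4 : ¬ (1 : F) = l⁻¹ := by
        intro h; exact h1 (inv_eq_one.1 h.symm)
      have h5 : ¬ (1 : F) = l := fun h => h1 h.symm
      simp only [h3, h4, h5, if_false, sum_const_zero]
      ring
  · have a1 : ∀ t : F, ¬ (v = t • (z.1 *ᵥ v)) := by
      intro t h
      apply hD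
      have : D v (z.1 *ᵥ v) = D (t • (z.1 *ᵥ v)) (z.1 *ᵥ v) := by rw [← h]
      rw [this, D_smul_left, D_self, mul_zero]
    have a2 : ∀ t : F, ¬ (z.1 *ᵥ v = t • v) := by
      intro t h
      apply hD
      rw [h, D_smul_right, D_self, mul_zero]
    have h2 : ∀ t : F, (if t ≠ 0 then ∑ s : F, cnt (z * N v s) t else 0) =
        (if t ≠ 0 then ((Fintype.card F : ℝ) - 1) else 0) := by
      intro t
      by_cases ht : t = 0
      · simp [ht]
      · rw [if_pos ht, if_pos ht, cnt_line z hv ht]
        simp only [a1, a2, hD, ne_eq, not_false_eq_true, if_true, if_false, zero_add]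
    have h3 : ∀ s : F, ¬ (z * N v s = 1) := by
      intro s h
      have : (z * N v s).1 *ᵥ v = v := by rw [h]; simp
      rw [mul_mulVec, N_fix] at this
      exact a2 1 (by rw [this, one_smul])
    simp only [h2, sum_ne_zero, a1, a2, h3, hD, ne_eq, not_false_eq_true, if_true, if_false,
      sum_const_zero]
    ring

end Pool.Agent.MP_21a573_al.SL
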