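import Pool.Agent.MP_21a573_al.SL.Defs

/-!
Stabilisers of vectors in `SL_2` and the cosets of the unipotent radicals.
-/

open scoped MatrixGroups
open Matrix

namespace Pool.Agent.MP_21a573_al.SL

variable {F : Type*} [Field F]

/-- The standard alternating form on `F^2`. -/
def D (v w : Fin 2 → F) : F := v 0 * w 1 - v 1 * w 0

/-- The transvection `u ↦ u + s D(v,u) v`. -/
def N (v : Fin 2 → F) (s : F) : SL(2, F) :=
  ⟨!![1 - s * v 0 * v 1, s * v 0 * v 0; -(s * v 1 * v 1), 1 + s * v 0 * v 1], by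
    rw [Matrix.det_fin_two_of]; ring⟩

lemma N_val (v : Fin 2 → F) (s : F) : (N v s).1 =
    !![1 - s * v 0 * v 1, s * v 0 * v 0; -(s * v 1 * v 1), 1 + s * v 0 * v 1] := rfl

lemma N_mulVec (v u : Fin 2 → F) (s : F) : (N v s).1 *ᵥ u = u + (s * D v u) • v := by
  ext i
  fin_cases i <;> simp [N_val, D, Matrix.mulVec, dotProduct, Fin.sum_univ_two] <;> ring

lemma D_self (v : Fin 2 → F) : D v v = 0 := by simp [D]; ring

lemma D_smul_right (v u : Fin 2 → F) (c : F) : D v (c • u) = c * D v u := by simp [D]; ring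

lemma D_smul_left (v u : Fin 2 → F) (c : F) : D (c • v) u = c * D v u := by simp [D]; ring

lemma D_add_right (v u w : Fin 2 → F) : D v (u + w) = D v u + D v w := by simp [D]; ring

lemma D_sub_right (v u w : Fin 2 → F) : D v (u - w) = D v u - D v w := by simp [D]; ring

lemma D_sub_left (v u w : Fin 2 → F) : D (v - u) w = D v w - D u w := by simp [D]; ring

lemma D_add_left (v u w : Fin 2 → F) : D (v + u) w = D v w + D u w := by simp [D]; ring

lemma D_swap (v u : Fin 2 → F) : D v u = - D u v := by simp [D]; ring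

lemma D_zero_right (v : Fin 2 → F) : D v 0 = 0 := by simp [D]

lemma D_zero_left (v : Fin 2 → F) : D 0 v = 0 := by simp [D]

lemma det_eq (g : SL(2, F)) : g.1 0 0 * g.1 1 1 - g.1 0 1 * g.1 1 0 = 1 := by
  have := g.2
  rwa [Matrix.det_fin_two] at this

lemma D_mulVec (g : SL(2, F)) (v u : Fin 2 → F) : D (g.1 *ᵥ v) (g.1 *ᵥ u) = D v u := by
  have := det_eq g
  simp only [D, Matrix.mulVec, dotProduct, Fin.sum_univ_two]
  linear_combination (v 0 * u 1 - v 1 * u 0) * this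

lemma ne_zero_iff (v : Fin 2 → F) : v ≠ 0 ↔ v 0 ≠ 0 ∨ v 1 ≠ 0 := by
  constructor
  · intro h
    by_contra hh
    push Not at hh
    apply h
    ext i; fin_cases i
    · simpa using hh.1
    · simpa using hh.2
  · rintro (h | h) rfl <;> simp at h

lemma exists_smul_of_D {v u : Fin 2 → F} (hv : v ≠ 0) (h : D v u = 0) : ∃ c : F, u = c • v := by
  unfold D at h
  rcases (ne_zero_iff v).1 hv with h0 | h1
  · refine ⟨u 0 / v 0, ?_⟩
    ext i; fin_cases i
    · simp; field_simp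
    · simp; field_simp; linear_combination h
  · refine ⟨u 1 / v 1, ?_⟩
    ext i; fin_cases i
    · simp; field_simp; linear_combination -h
    · simp; field_simp

lemma exists_D_one {v : Fin 2 → F} (hv : v ≠ 0) : ∃ u, D v u = 1 := by
  rcases (ne_zero_iff v).1 hv with h0 | h1
  · exact ⟨![0, (v 0)⁻¹], by simp [D, h0]⟩
  · exact ⟨![-(v 1)⁻¹, 0], by simp [D, h1]⟩

lemma decomp {v w : Fin 2 → F} (h : D v w ≠ 0) (u : Fin 2 → F) :
    u = (D u w / D v w) • v + (D v u / D v w) • w := by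
  ext i
  fin_cases i
  · simp only [Fin.zero_eta, Pi.add_apply, Pi.smul_apply, smul_eq_mul]
    field_simp
    simp only [D]; ring
  · simp only [Fin.mk_one, Pi.add_apply, Pi.smul_apply, smul_eq_mul]
    field_simp
    simp only [D]; ring

lemma ext_of_basis {v w : Fin 2 → F} (h : D v w ≠ 0) {g y : SL(2, F)}
    (h1 : g.1 *ᵥ v = y.1 *ᵥ v) (h2 : g.1 *ᵥ w = y.1 *ᵥ w) : g = y := by
  apply Subtype.ext
  apply Matrix.ext_of_mulVec_single
  intro i
  rw [decomp h (Pi.single i 1), Matrix.mulVec_add, Matrix.mulVec_add, Matrix.mulVec_smul,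
    Matrix.mulVec_smul, Matrix.mulVec_smul, Matrix.mulVec_smul, h1, h2]

lemma mul_mulVec (g y : SL(2, F)) (v : Fin 2 → F) : (g * y).1 *ᵥ v = g.1 *ᵥ (y.1 *ᵥ v) := by
  rw [Matrix.mulVec_mulVec]; rfl

lemma inv_mulVec (g : SL(2, F)) (v : Fin 2 → F) : (g⁻¹).1 *ᵥ (g.1 *ᵥ v) = v := by
  rw [← mul_mulVec, inv_mul_cancel]; simp

lemma mulVec_inv (g : SL(2, F)) (v : Fin 2 → F) : g.1 *ᵥ ((g⁻¹).1 *ᵥ v) = v := by
  rw [← mul_mulVec, mul_inv_cancel]; simp

lemma mulVec_inj (g : SL(2, F)) {v u : Fin 2 → F} (h : g.1 *ᵥ v = g.1 *ᵥ u) : v = u := by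
  rw [← inv_mulVec g v, h, inv_mulVec]

lemma mulVec_ne_zero (g : SL(2, F)) {v : Fin 2 → F} (hv : v ≠ 0) : g.1 *ᵥ v ≠ 0 := by
  intro h
  apply hv
  apply mulVec_inj g
  rw [h, Matrix.mulVec_zero]

lemma N_fix (v : Fin 2 → F) (s : F) : (N v s).1 *ᵥ v = v := by
  rw [N_mulVec, D_self]; simp

lemma N_injective {v : Fin 2 → F} (hv : v ≠ 0) : Function.Injective (N v) := by
  intro s t h
  obtain ⟨u, hu⟩ := exists_D_one hv
  have h1 : (N v s).1 *ᵥ u = (N v t).1 *ᵥ u := by rw [h]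
  rw [N_mulVec, N_mulVec, hu, mul_one, mul_one, add_right_inj] at h1
  exact smul_left_injective F hv h1

lemma exists_N_of_fix {v : Fin 2 → F} (hv : v ≠ 0) {z : SL(2, F)} (hz : z.1 *ᵥ v = v) :
    ∃ s, z = N v s := by
  obtain ⟨u, hu⟩ := exists_D_one hv
  have h1 : D v (z.1 *ᵥ u - u) = 0 := by
    rw [D_sub_right]
    have := D_mulVec z v u
    rw [hz] at this
    rw [this, sub_self]
  obtain ⟨c, hc⟩ := exists_smul_of_D hv h1
  refine ⟨c, ext_of_basis (v := v) (w := u) (by rw [hu]; exact one_ne_zero) ?_ ?_⟩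
  · rw [hz, N_fix]
  · rw [N_mulVec, hu, mul_one, ← hc]; abel

lemma unipRad_span {v : Fin 2 → F} (hv : v ≠ 0) :
    unipRad F (Submodule.span F {v}) = Set.range (N v) := by
  ext z
  constructor
  · rintro ⟨-, h2⟩
    obtain ⟨s, hs⟩ := exists_N_of_fix hv (h2 v (Submodule.mem_span_singleton_self v))
    exact ⟨s, hs.symm⟩
  · rintro ⟨s, rfl⟩
    refine ⟨fun u => ?_, fun u hu => ?_⟩
    · rw [Submodule.mem_span_singleton]
      exact ⟨s * D v u, by rw [N_mulVec]; abel⟩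
    · obtain ⟨c, rfl⟩ := Submodule.mem_span_singleton.1 hu
      rw [Matrix.mulVec_smul, N_fix]

lemma mem_unipRadicals_iff (U : Set SL(2, F)) :
    U ∈ unipRadicals F ↔ ∃ v : Fin 2 → F, v ≠ 0 ∧ U = Set.range (N v) := by
  constructor
  · rintro ⟨l, hl, rfl⟩
    obtain ⟨v, hv0, hv⟩ := finrank_eq_one_iff'.1 hl
    have hl' : l = Submodule.span F {(v : Fin 2 → F)} := by
      apply le_antisymm
      · intro w hw
        obtain ⟨c, hc⟩ := hv ⟨w, hw⟩
        rw [Submodule.mem_span_singleton]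
        exact ⟨c, congrArg Subtype.val hc⟩
      · rw [Submodule.span_singleton_le_iff_mem]; exact v.2
    have hv1 : (v : Fin 2 → F) ≠ 0 := fun h => hv0 (Subtype.ext h)
    refine ⟨v, hv1, ?_⟩
    rw [← unipRad_span hv1, ← hl']
  · rintro ⟨v, hv, rfl⟩
    exact ⟨_, finrank_span_singleton hv, (unipRad_span hv).symm⟩

lemma finsum_range_N [Fintype F] {v : Fin 2 → F} (hv : v ≠ 0) (f : Set.range (N v) → ℂ) :
    ∑ᶠ u, f u = ∑ s : F, f ⟨N v s, ⟨s, rfl⟩⟩ := by
  rw [← finsum_eq_sum_of_fintype]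
  exact (finsum_comp_equiv (Equiv.ofInjective _ (N_injective hv)) (f := f)).symm

lemma isCuspidal_iff [Fintype F] (φ : SL(2, F) → ℂ) :
    IsCuspidal F φ ↔ ∀ g : SL(2, F), ∀ v : Fin 2 → F, v ≠ 0 → ∑ s : F, φ (g * N v s) = 0 := by
  constructor
  · intro h g v hv
    have := h g _ ((mem_unipRadicals_iff _).2 ⟨v, hv, rfl⟩)
    rwa [finsum_range_N hv] at this
  · intro h g U hU
    obtain ⟨v, hv, rfl⟩ := (mem_unipRadicals_iff _).1 hU
    rw [finsum_range_N hv]
    exact h g v hv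

lemma mem_weakSpace_iff [Fintype F] (X : Set SL(2, F)) (f : X → ℂ) :
    f ∈ weakSpace F X ↔ ∀ g : SL(2, F), ∀ v : Fin 2 → F, v ≠ 0 → ∀ h : ∀ s, g * N v s ∈ X,
      ∑ s : F, f ⟨g * N v s, h s⟩ = 0 := by
  constructor
  · intro h g v hv hX
    have := h g _ ((mem_unipRadicals_iff _).2 ⟨v, hv, rfl⟩)
      (by rintro _ ⟨s, rfl⟩; exact hX s)
    rwa [finsum_range_N hv] at this
  · intro h g U hU hX
    obtain ⟨v, hv, rfl⟩ := (mem_unipRadicals_iff _).1 hU
    rw [finsum_range_N hv]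
    exact h g v hv (fun s => hX _ ⟨s, rfl⟩)

lemma cusp_subset_weak [Fintype F] (X : Set SL(2, F)) : cuspSpace F X ⊆ weakSpace F X := by
  rintro f ⟨φ, hφ, hf⟩
  rw [mem_weakSpace_iff]
  intro g v hv h
  rw [isCuspidal_iff] at hφ
  rw [← hφ g v hv]
  exact Finset.sum_congr rfl fun s _ => hf _

/-- The trace. -/
def tr (g : SL(2, F)) : F := g.1 0 0 + g.1 1 1

lemma tr_mul_N (g : SL(2, F)) (v : Fin 2 → F) (s : F) :
    tr (g * N v s) = tr g + s * D v (g.1 *ᵥ v) := by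
  simp [tr, N_val, D, Matrix.mul_apply, Fin.sum_univ_two, Matrix.mulVec, dotProduct]
  ring

lemma cayley (g : SL(2, F)) (v : Fin 2 → F) :
    g.1 *ᵥ (g.1 *ᵥ v) = tr g • (g.1 *ᵥ v) - v := by
  have := det_eq g
  ext i
  fin_cases i
  · simp [tr, Matrix.mulVec, dotProduct, Fin.sum_univ_two]
    linear_combination (-v 0) * this
  · simp [tr, Matrix.mulVec, dotProduct, Fin.sum_univ_two]
    linear_combination (-v 1) * this

lemma root_of_eigen (g : SL(2, F)) {v : Fin 2 → F} (hv : v ≠ 0) {m : F} (h : g.1 *ᵥ v = m • v) :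
    m ^ 2 - tr g * m + 1 = 0 := by
  have h1 := cayley g v
  rw [h, Matrix.mulVec_smul, h, smul_smul, smul_smul] at h1
  have h2 : (m ^ 2 - tr g * m + 1) • v = 0 := by
    rw [add_smul, sub_smul, one_smul, pow_two, h1]; abel
  exact (smul_eq_zero.1 h2).resolve_right hv

lemma eigen_of_root (g : SL(2, F)) {m : F} (h : m ^ 2 - tr g * m + 1 = 0) :
    ∃ v : Fin 2 → F, v ≠ 0 ∧ g.1 *ᵥ v = m • v := by
  have hd : (g.1 - m • (1 : Matrix (Fin 2) (Fin 2) F)).det = 0 := by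
    have := det_eq g
    rw [Matrix.det_fin_two]
    simp [tr] at h ⊢
    linear_combination h + this
  obtain ⟨v, hv, h0⟩ := Matrix.exists_mulVec_eq_zero_iff.2 hd
  refine ⟨v, hv, ?_⟩
  rw [Matrix.sub_mulVec, Matrix.smul_mulVec, Matrix.one_mulVec, sub_eq_zero] at h0
  exact h0

lemma eq_of_tr {g y : SL(2, F)} (ht : tr g = tr y) {v : Fin 2 → F} (hD : D v (g.1 *ᵥ v) ≠ 0)
    (h : g.1 *ᵥ v = y.1 *ᵥ v) : g = y := by
  refine ext_of_basis hD h ?_
  rw [cayley, h, cayley, ht]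

end Pool.Agent.MP_21a573_al.SL
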